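import Pool.Agent.H91.TC.Targets

/-! The action in a chart (row TUA of the board tsc, helper10). -/

open Set Function Topology Metric Filter
open scoped Manifold

namespace Pool.Agent.H10.TSC

open Pool.Agent.H88.CL Pool.Agent.H88.CM Pool.Agent.H91.TC

noncomputable section

section

variable {n k : ℕ} {M : Type} [TopologicalSpace M] [ChartedSpace (E n) M] {a : E k → M → M}

/-- the action in a chart is `C²` -/
theorem F_cd (hA : Act n k a) (κ : Ch n M) (hκ : κ ∈ MA n M) (v : E k) (y : E n)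
    (hy : y ∈ κ.target) (hs : a v (κ.symm y) ∈ κ.source) :
    ContDiffAt ℝ 2 (fun p : E k × E n => κ (a p.1 (κ.symm p.2))) (v, y) := by
  have h1 : ContMDiffAt 𝓘(ℝ, E k × E n) 𝓘(ℝ, E n) 2
      (fun p : E k × E n => κ.symm p.2) (v, y) :=
    ContMDiffAt.comp (v, y) (contMDiffAt_symm_of_mem_maximalAtlas hκ hy)
      contDiff_snd.contMDiff.contMDiffAt
  have h2 : ContMDiffAt 𝓘(ℝ, E k × E n) (𝓘(ℝ, E k).prod 𝓘(ℝ, E n)) 2
      (fun p : E k × E n => (p.1, κ.symm p.2)) (v, y) :=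
    ContMDiffAt.prodMk contDiff_fst.contMDiff.contMDiffAt h1
  have h3 : ContMDiffAt 𝓘(ℝ, E k × E n) 𝓘(ℝ, E n) 2
      (fun p : E k × E n => a p.1 (κ.symm p.2)) (v, y) :=
    ContMDiffAt.comp (v, y) (hA.c2 (v, κ.symm y)) h2
  have h4 : ContMDiffAt 𝓘(ℝ, E k × E n) 𝓘(ℝ, E n) 2
      (fun p : E k × E n => κ (a p.1 (κ.symm p.2))) (v, y) :=
    ContMDiffAt.comp (v, y) (contMDiffAt_of_mem_maximalAtlas hκ hs) h3
  exact h4.contDiffAt

theorem a_cont (hA : Act n k a) : Continuous (fun p : E k × M => a p.1 p.2) :=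
  hA.c2.continuous

/-- the infinitesimal action at `x` is injective -/
theorem J_inj (hA : Act n k a) (x : M) (hst : ∀ v, a v x = x → v ∈ Lat k) (κ : Ch n M)
    (hκ : κ ∈ MA n M) (hx : x ∈ κ.source) (v0 : E k)
    (h : fderiv ℝ (fun v => κ (a v x)) 0 v0 = 0) : v0 = 0 := by
  by_contra hv0
  have hg : DifferentiableAt ℝ (fun v => κ (a v x)) 0 := by
    have h1 := F_cd hA κ hκ 0 (κ x) (κ.map_source hx) (by rw [κ.left_inv hx, hA.zero]; exact hx)
    have h2 : ContDiffAt ℝ 2 (fun v : E k => ((v, κ x) : E k × E n)) 0 := by fun_prop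
    have h3 : ContDiffAt ℝ 2 (fun v => κ (a v (κ.symm (κ x)))) (0 : E k) :=
      ContDiffAt.comp (g := fun p : E k × E n => κ (a p.1 (κ.symm p.2)))
        (f := fun v : E k => ((v, κ x) : E k × E n)) (0 : E k) h1 h2
    rw [κ.left_inv hx] at h3
    exact h3.differentiableAt (by norm_num)
  -- the curve
  have hct : Continuous (fun t : ℝ => a (t • v0) x) :=
    (a_cont hA).comp ((continuous_id.smul continuous_const).prodMk continuous_const)
  have hopen : ∀ᶠ t : ℝ in 𝓝 0, a (t • v0) x ∈ κ.source := by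
    refine hct.continuousAt.eventually_mem (κ.open_source.mem_nhds ?_)
    rw [zero_smul, hA.zero]
    exact hx
  obtain ⟨δ, hδ, hball⟩ := Metric.eventually_nhds_iff.1 hopen
  have hder : ∀ t : ℝ, dist t 0 < δ → HasDerivAt (fun t : ℝ => κ (a (t • v0) x)) 0 t := by
    intro t ht
    have hF := F_cd hA κ hκ (t • v0) (κ x) (κ.map_source hx)
      (by rw [κ.left_inv hx]; exact hball ht)
    have hF1 := (hF.differentiableAt (by norm_num)).hasFDerivAt
    have hs : HasDerivAt (fun s : ℝ => κ (a (s • v0) x)) 0 0 := by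
      have h1 : HasDerivAt (fun s : ℝ => s • v0) ((1 : ℝ) • v0) 0 :=
        (hasDerivAt_id (0 : ℝ)).smul_const v0
      have h2 : HasFDerivAt (fun v => κ (a v x)) (fderiv ℝ (fun v => κ (a v x)) 0)
          ((0 : ℝ) • v0) := by
        rw [zero_smul]
        exact hg.hasFDerivAt
      have h3 := h2.comp_hasDerivAt (0 : ℝ) h1
      rw [one_smul, h] at h3
      exact h3
    have hpair : HasDerivAt (fun s : ℝ => ((t • v0, κ (a (s • v0) x)) : E k × E n)) (0, 0) 0 :=
      (hasDerivAt_const (0 : ℝ) (t • v0)).prodMk hs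
    have hF2 : HasFDerivAt (fun p : E k × E n => κ (a p.1 (κ.symm p.2)))
        (fderiv ℝ (fun p : E k × E n => κ (a p.1 (κ.symm p.2))) (t • v0, κ x))
        ((t • v0, κ (a ((0 : ℝ) • v0) x)) : E k × E n) := by
      rw [zero_smul, hA.zero]
      exact hF1
    have h4 := hF2.comp_hasDerivAt (0 : ℝ) hpair
    have h5 : (fderiv ℝ (fun p : E k × E n => κ (a p.1 (κ.symm p.2))) (t • v0, κ x))
        ((0, 0) : E k × E n) = 0 := map_zero _
    rw [h5] at h4
    have h6 : HasDerivAt (fun t' : ℝ => t' - t) 1 t := (hasDerivAt_id t).sub_const t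
    have h7 : HasDerivAt ((fun p : E k × E n => κ (a p.1 (κ.symm p.2))) ∘
        fun s : ℝ => ((t • v0, κ (a (s • v0) x)) : E k × E n)) 0 (t - t) := by
      rw [sub_self]
      exact h4
    have h8 := HasDerivAt.scomp (h := fun t' : ℝ => t' - t) t h7 h6
    rw [smul_zero] at h8
    refine h8.congr_of_eventuallyEq ?_
    have h9 : ∀ᶠ t' : ℝ in 𝓝 t, a ((t' - t) • v0) x ∈ κ.source := by
      have h10 : Continuous (fun t' : ℝ => a ((t' - t) • v0) x) :=
        hct.comp (continuous_id.sub continuous_const)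
      refine h10.continuousAt.eventually_mem (κ.open_source.mem_nhds ?_)
      rw [sub_self, zero_smul, hA.zero]
      exact hx
    filter_upwards [h9] with t' ht'
    show κ (a (t' • v0) x) = κ (a (t • v0) (κ.symm (κ (a ((t' - t) • v0) x))))
    rw [κ.left_inv ht', ← hA.add, ← add_smul, add_sub_cancel]
  have hconst : ∀ t : ℝ, dist t 0 < δ → a (t • v0) x = x := by
    intro t ht
    have h1 := IsOpen.is_const_of_deriv_eq_zero (f := fun t : ℝ => κ (a (t • v0) x))
      (s := ball (0 : ℝ) δ) isOpen_ball (convex_ball 0 δ).isPreconnected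
      (fun s hs => (hder s hs).differentiableAt.differentiableWithinAt)
      (fun s hs => (hder s hs).deriv) (x := t) (y := 0) ht (mem_ball_self hδ)
    simp only [zero_smul, hA.zero] at h1
    exact κ.injOn (hball ht) hx h1
  obtain ⟨i, hi⟩ : ∃ i, v0 i ≠ 0 := by
    by_contra hcon
    push Not at hcon
    apply hv0
    ext i
    exact hcon i
  have hpos : 0 < |v0 i| := abs_pos.2 hi
  have ht0 : 0 < min (δ / 2) (1 / (2 * |v0 i|)) := lt_min (by linarith) (by positivity)
  have ht1 : min (δ / 2) (1 / (2 * |v0 i|)) < δ := lt_of_le_of_lt (min_le_left _ _) (by linarith)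
  obtain ⟨m, hm⟩ := hst _ (hconst (min (δ / 2) (1 / (2 * |v0 i|))) (by
    rw [Real.dist_eq, sub_zero, abs_of_pos ht0]
    exact ht1)) i
  have h1 : |((m : ℤ) : ℝ)| ≤ 1 / 2 := by
    rw [← hm]
    show |min (δ / 2) (1 / (2 * |v0 i|)) * v0 i| ≤ 1 / 2
    rw [abs_mul, abs_of_pos ht0]
    calc min (δ / 2) (1 / (2 * |v0 i|)) * |v0 i| ≤ 1 / (2 * |v0 i|) * |v0 i| :=
          mul_le_mul_of_nonneg_right (min_le_right _ _) hpos.le
      _ = 1 / 2 := by field_simp
  have h2 : m = 0 := by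
    have h3 : |m| < 1 := by
      have : ((|m| : ℤ) : ℝ) < 1 := by
        rw [Int.cast_abs]
        linarith
      exact_mod_cast this
    exact Int.abs_lt_one_iff.1 h3
  rw [h2, Int.cast_zero] at hm
  have h3 : min (δ / 2) (1 / (2 * |v0 i|)) * v0 i = 0 := hm
  rcases mul_eq_zero.1 h3 with h4 | h4
  · linarith
  · exact hi h4

end

/-- a complement of the range of an injective map -/
theorem compl_ex {n k : ℕ} (J : E k →L[ℝ] E n) (hJ : Injective J) : ∃ d : ℕ, n = d + k ∧
    ∃ (I : E d →L[ℝ] E n) (L : (E d × E k) ≃L[ℝ] E n), ∀ u v, L (u, v) = I u + J v := by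
  have hJ' : Injective (J : E k →ₗ[ℝ] E n) := hJ
  obtain ⟨Q, hQ⟩ := Submodule.exists_isCompl (LinearMap.range (J : E k →ₗ[ℝ] E n))
  have h1 := Submodule.finrank_add_eq_of_isCompl hQ
  rw [LinearMap.finrank_range_of_inj hJ', finrank_euclideanSpace_fin,
    finrank_euclideanSpace_fin] at h1
  refine ⟨Module.finrank ℝ Q, by omega, ?_⟩
  have h2 : Module.finrank ℝ (E (Module.finrank ℝ Q)) = Module.finrank ℝ Q :=
    finrank_euclideanSpace_fin
  let iso : E (Module.finrank ℝ Q) ≃L[ℝ] Q := ContinuousLinearEquiv.ofFinrankEq h2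
  let I : E (Module.finrank ℝ Q) →L[ℝ] E n := Q.subtypeL.comp (iso : E (Module.finrank ℝ Q) →L[ℝ] Q)
  have hI : ∀ u, I u ∈ Q := fun u => (iso u).2
  have hI0 : ∀ u, I u = 0 → u = 0 := by
    intro u hu
    have h3 : iso u = 0 := Subtype.ext hu
    exact (map_eq_zero_iff iso iso.injective).1 h3
  let L0 : (E (Module.finrank ℝ Q) × E k) →ₗ[ℝ] E n :=
    ((I.coprod J : (E (Module.finrank ℝ Q) × E k) →L[ℝ] E n) :
      (E (Module.finrank ℝ Q) × E k) →ₗ[ℝ] E n)
  have hL0 : ∀ u v, L0 (u, v) = I u + J v := fun u v => rfl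
  have hinj : Injective L0 := by
    rw [injective_iff_map_eq_zero]
    rintro ⟨u, v⟩ huv
    rw [hL0] at huv
    have h3 : I u = -J v := eq_neg_of_add_eq_zero_left huv
    have h4 : I u ∈ LinearMap.range (J : E k →ₗ[ℝ] E n) ⊓ Q := by
      refine ⟨?_, hI u⟩
      rw [h3]
      exact ⟨-v, map_neg J v⟩
    rw [hQ.inf_eq_bot, Submodule.mem_bot] at h4
    have h5 : J v = 0 := by
      rw [h4] at h3
      exact neg_eq_zero.1 h3.symm
    have h6 : v = 0 := (map_eq_zero_iff J hJ).1 h5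
    rw [hI0 u h4, h6]
    rfl
  have hdim : Module.finrank ℝ (E (Module.finrank ℝ Q) × E k) = Module.finrank ℝ (E n) := by
    rw [Module.finrank_prod, finrank_euclideanSpace_fin, finrank_euclideanSpace_fin,
      finrank_euclideanSpace_fin]
    omega
  exact ⟨I, (LinearMap.linearEquivOfInjective L0 hinj hdim).toContinuousLinearEquiv,
    fun u v => rfl⟩

section

variable {n k : ℕ} {M : Type} [TopologicalSpace M] [ChartedSpace (E n) M] {a : E k → M → M}

/-- the local parametrisation by the slice and the group -/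
def Hm {n d k : ℕ} {M : Type} [TopologicalSpace M] (a : E k → M → M) (κ : Ch n M) (x : M)
    (I : E d →L[ℝ] E n) (L : (E d × E k) ≃L[ℝ] E n) (w : E n) : E n :=
  κ (a (L.symm w).2 (κ.symm (κ x + I (L.symm w).1)))

theorem Hm_apply {d : ℕ} (κ : Ch n M) (x : M) (I : E d →L[ℝ] E n)
    (L : (E d × E k) ≃L[ℝ] E n) (u : E d) (v : E k) :
    Hm a κ x I L (L (u, v)) = κ (a v (κ.symm (κ x + I u))) := by
  unfold Hm
  rw [L.symm_apply_apply]

theorem Hm_zero {d : ℕ} (hA : Act n k a) (κ : Ch n M) (x : M) (hx : x ∈ κ.source)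
    (I : E d →L[ℝ] E n) (L : (E d × E k) ≃L[ℝ] E n) : Hm a κ x I L 0 = κ x := by
  have h1 := Hm_apply (a := a) κ x I L 0 0
  have h2 : L ((0, 0) : E d × E k) = 0 := map_zero L
  rw [h2] at h1
  rw [h1, map_zero, add_zero, hA.zero, κ.left_inv hx]

theorem Hm_cd {d : ℕ} (hA : Act n k a) (κ : Ch n M) (hκ : κ ∈ MA n M) (x : M)
    (hx : x ∈ κ.source) (I : E d →L[ℝ] E n) (L : (E d × E k) ≃L[ℝ] E n)
    (hL : ∀ u v, L (u, v) = I u + fderiv ℝ (fun v => κ (a v x)) 0 v) :
    ContDiffAt ℝ 2 (Hm a κ x I L) 0 ∧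
      HasFDerivAt (Hm a κ x I L) ((ContinuousLinearEquiv.refl ℝ (E n) : E n ≃L[ℝ] E n) :
        E n →L[ℝ] E n) 0 := by
  have hF := F_cd hA κ hκ 0 (κ x) (κ.map_source hx) (by rw [κ.left_inv hx, hA.zero]; exact hx)
  have hLs : L.symm 0 = ((0, 0) : E d × E k) := map_zero L.symm
  have hin : ContDiffAt ℝ 2 (fun w : E n => (((L.symm w).2, κ x + I (L.symm w).1) : E k × E n))
      0 := by
    have h1 : ContDiff ℝ 2 (fun w : E n => L.symm w) := L.symm.contDiff
    have h2 : ContDiff ℝ 2 (fun w : E n => (L.symm w).2) := contDiff_snd.comp h1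
    have h3 : ContDiff ℝ 2 (fun w : E n => (L.symm w).1) := contDiff_fst.comp h1
    have h4 : ContDiff ℝ 2 (fun w : E n => κ x + I (L.symm w).1) :=
      contDiff_const.add (I.contDiff.comp h3)
    exact (h2.prodMk h4).contDiffAt
  have hval : (((L.symm (0 : E n)).2, κ x + I (L.symm (0 : E n)).1) : E k × E n) = (0, κ x) := by
    rw [hLs]
    simp
  have hF' : ContDiffAt ℝ 2 (fun p : E k × E n => κ (a p.1 (κ.symm p.2)))
      (((L.symm (0 : E n)).2, κ x + I (L.symm (0 : E n)).1) : E k × E n) := by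
    rw [hval]
    exact hF
  refine ⟨ContDiffAt.comp (g := fun p : E k × E n => κ (a p.1 (κ.symm p.2)))
    (f := fun w : E n => (((L.symm w).2, κ x + I (L.symm w).1) : E k × E n)) 0 hF' hin, ?_⟩
  -- the derivative of the action in the chart
  have hFd := (hF.differentiableAt (by norm_num)).hasFDerivAt
  set D := fderiv ℝ (fun p : E k × E n => κ (a p.1 (κ.symm p.2))) (0, κ x) with hD
  have hD1 : ∀ v : E k, D (v, 0) = fderiv ℝ (fun v => κ (a v x)) 0 v := by
    intro v
    have h1 : HasFDerivAt (fun v : E k => ((v, κ x) : E k × E n))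
        (ContinuousLinearMap.inl ℝ (E k) (E n)) 0 := hasFDerivAt_prodMk_left 0 (κ x)
    have h2 := HasFDerivAt.comp (g := fun p : E k × E n => κ (a p.1 (κ.symm p.2)))
      (f := fun v : E k => ((v, κ x) : E k × E n)) 0 hFd h1
    have h3 : (fun p : E k × E n => κ (a p.1 (κ.symm p.2))) ∘
        (fun v : E k => ((v, κ x) : E k × E n)) = fun v => κ (a v x) := by
      funext v
      show κ (a v (κ.symm (κ x))) = _
      rw [κ.left_inv hx]
    rw [h3] at h2
    rw [h2.fderiv]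
    rfl
  have hD2 : ∀ y : E n, D (0, y) = y := by
    intro y
    have h1 : HasFDerivAt (fun y : E n => (((0 : E k), y) : E k × E n))
        (ContinuousLinearMap.inr ℝ (E k) (E n)) (κ x) := hasFDerivAt_prodMk_right 0 (κ x)
    have h2 := HasFDerivAt.comp (g := fun p : E k × E n => κ (a p.1 (κ.symm p.2)))
      (f := fun y : E n => (((0 : E k), y) : E k × E n)) (κ x) hFd h1
    have h3 : HasFDerivAt ((fun p : E k × E n => κ (a p.1 (κ.symm p.2))) ∘
        (fun y : E n => (((0 : E k), y) : E k × E n))) (ContinuousLinearMap.id ℝ (E n)) (κ x) := by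
      refine (hasFDerivAt_id (κ x)).congr_of_eventuallyEq ?_
      filter_upwards [κ.open_target.mem_nhds (κ.map_source hx)] with z hz
      show κ (a 0 (κ.symm z)) = z
      rw [hA.zero, κ.right_inv hz]
    have h4 := congrArg (fun T : E n →L[ℝ] E n => T y) (h2.unique h3)
    exact h4
  have hin' : HasFDerivAt (fun w : E n => (((L.symm w).2, κ x + I (L.symm w).1) : E k × E n))
      (((ContinuousLinearMap.snd ℝ (E d) (E k)).comp (L.symm : E n →L[ℝ] E d × E k)).prod
        (I.comp ((ContinuousLinearMap.fst ℝ (E d) (E k)).comp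
          (L.symm : E n →L[ℝ] E d × E k)))) 0 := by
    have h1 : HasFDerivAt (fun w : E n => L.symm w) (L.symm : E n →L[ℝ] E d × E k) 0 :=
      L.symm.hasFDerivAt
    have h2 : HasFDerivAt (fun w : E n => (L.symm w).2)
        ((ContinuousLinearMap.snd ℝ (E d) (E k)).comp (L.symm : E n →L[ℝ] E d × E k)) 0 := h1.snd
    have h3 : HasFDerivAt (fun w : E n => (L.symm w).1)
        ((ContinuousLinearMap.fst ℝ (E d) (E k)).comp (L.symm : E n →L[ℝ] E d × E k)) 0 := h1.fst
    have h4 : HasFDerivAt (fun w : E n => κ x + I (L.symm w).1)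
        (I.comp ((ContinuousLinearMap.fst ℝ (E d) (E k)).comp
          (L.symm : E n →L[ℝ] E d × E k))) 0 := (I.hasFDerivAt.comp 0 h3).const_add (κ x)
    exact h2.prodMk h4
  have hFd' : HasFDerivAt (fun p : E k × E n => κ (a p.1 (κ.symm p.2))) D
      (((L.symm (0 : E n)).2, κ x + I (L.symm (0 : E n)).1) : E k × E n) := by
    rw [hval]
    exact hFd
  have h5 := HasFDerivAt.comp (g := fun p : E k × E n => κ (a p.1 (κ.symm p.2)))
    (f := fun w : E n => (((L.symm w).2, κ x + I (L.symm w).1) : E k × E n)) 0 hFd' hin'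
  have h6 : D.comp (((ContinuousLinearMap.snd ℝ (E d) (E k)).comp
      (L.symm : E n →L[ℝ] E d × E k)).prod (I.comp ((ContinuousLinearMap.fst ℝ (E d) (E k)).comp
        (L.symm : E n →L[ℝ] E d × E k)))) =
      ((ContinuousLinearEquiv.refl ℝ (E n) : E n ≃L[ℝ] E n) : E n →L[ℝ] E n) := by
    refine ContinuousLinearMap.ext fun w => ?_
    show D ((L.symm w).2, I (L.symm w).1) = w
    have h7 : (((L.symm w).2, I (L.symm w).1) : E k × E n) =
        ((L.symm w).2, 0) + (0, I (L.symm w).1) := by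
      rw [Prod.mk_add_mk, add_zero, zero_add]
    rw [h7, map_add, hD1, hD2]
    have h8 := hL (L.symm w).1 (L.symm w).2
    rw [Prod.mk.eta, L.apply_symm_apply] at h8
    rw [add_comm]
    exact h8.symm
  rw [h6] at h5
  exact h5

end

/-- TUA: the action in a chart -/
theorem pf_TUA : T_TUA := by
  intro n k M _ _ _ _ a x hA hst
  obtain ⟨κ, hκ, hx⟩ : ∃ κ : Ch n M, κ ∈ MA n M ∧ x ∈ κ.source :=
    ⟨chartAt (E n) x, IsManifold.chart_mem_maximalAtlas x, mem_chart_source (E n) x⟩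
  have hJ : Injective (fderiv ℝ (fun v => κ (a v x)) 0) := by
    rw [injective_iff_map_eq_zero]
    exact fun v0 h => J_inj hA x hst κ hκ hx v0 h
  obtain ⟨d, hnd, I, L, hL⟩ := compl_ex _ hJ
  obtain ⟨hH, hH'⟩ := Hm_cd hA κ hκ x hx I L hL
  have hH0 := Hm_zero hA κ x hx I L
  have hne : (2 : WithTop ℕ∞) ≠ ((⊤ : ℕ∞) : WithTop ℕ∞) := by
    intro h
    exact absurd h (by decide)
  let Ψ0 := hH.toOpenPartialHomeomorph (Hm a κ x I L) hH' two_ne_zero
  have hΨ0 : ∀ w, Ψ0 w = Hm a κ x I L w := fun w => rfl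
  have h0s : (0 : E n) ∈ Ψ0.source := hH.mem_toOpenPartialHomeomorph_source hH' two_ne_zero
  let Ψ := Ψ0.restrContDiff ℝ 2 hne
  have hΨ : ∀ w, Ψ w = Hm a κ x I L w := fun w => rfl
  have h0 : (0 : E n) ∈ Ψ.source := by
    refine ⟨h0s, hH, ?_⟩
    refine Ψ0.contDiffAt_symm (f₀' := ContinuousLinearEquiv.refl ℝ (E n)) (Ψ0.map_source h0s)
      ?_ ?_
    · rw [Ψ0.left_inv h0s]
      exact hH'
    · rw [Ψ0.left_inv h0s]
      exact hH
  have hsymm : ∀ z ∈ Ψ.target, ContDiffAt ℝ 2 Ψ.symm z := fun z hz => hz.2.1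
  have hdir : ∀ w ∈ Ψ.source, ContDiffAt ℝ 2 Ψ w := fun w hw => hw.2.1
  have hΨ0' : Ψ 0 = κ x := hH0
  have hκx : κ x ∈ Ψ.target := by
    rw [← hΨ0']
    exact Ψ.map_source h0
  let κ' : Ch n M := κ.trans Ψ.symm
  have hκ'mem : κ' ∈ MA n M := by
    refine OpenPartialHomeomorph.mem_maximalAtlas_of_contMDiffOn κ' ?_ ?_
    · intro y hy
      have hy1 : y ∈ κ.source := hy.1
      have hy2 : κ y ∈ Ψ.target := hy.2
      have h1 : ContMDiffAt 𝓘(ℝ, E n) 𝓘(ℝ, E n) 2 (Ψ.symm ∘ κ) y :=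
        ContMDiffAt.comp y (hsymm _ hy2).contMDiffAt (contMDiffAt_of_mem_maximalAtlas hκ hy1)
      exact h1.contMDiffWithinAt
    · intro w hw
      have hw1 : w ∈ Ψ.source := hw.1
      have hw2 : Ψ w ∈ κ.target := hw.2
      have h1 : ContMDiffAt 𝓘(ℝ, E n) 𝓘(ℝ, E n) 2 (κ.symm ∘ Ψ) w :=
        ContMDiffAt.comp w (contMDiffAt_symm_of_mem_maximalAtlas hκ hw2)
          (hdir _ hw1).contMDiffAt
      exact h1.contMDiffWithinAt
  have hsrc : x ∈ κ'.source := ⟨hx, hκx⟩
  -- the neighbourhood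
  have hA1 : ∀ᶠ p : E d × E k in 𝓝 (0, 0), L p ∈ κ'.target := by
    refine L.continuous.continuousAt.eventually_mem (κ'.open_target.mem_nhds ?_)
    have h1 : L ((0, 0) : E d × E k) = 0 := map_zero L
    rw [h1]
    refine ⟨h0, ?_⟩
    show Ψ 0 ∈ κ.target
    rw [hΨ0']
    exact κ.map_source hx
  have hcB : Continuous (fun p : E d × E k => κ x + I p.1) :=
    continuous_const.add (I.continuous.comp continuous_fst)
  have hval : κ x + I ((0, 0) : E d × E k).1 = κ x := by
    show κ x + I 0 = κ x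
    rw [map_zero, add_zero]
  have hB1 : ∀ᶠ p : E d × E k in 𝓝 (0, 0), κ x + I p.1 ∈ κ.target := by
    refine hcB.continuousAt.eventually_mem (κ.open_target.mem_nhds ?_)
    rw [hval]
    exact κ.map_source hx
  have hcC : ContinuousAt (fun p : E d × E k => a p.2 (κ.symm (κ x + I p.1))) (0, 0) := by
    have h1 : ContinuousAt (fun p : E d × E k => κ.symm (κ x + I p.1)) (0, 0) := by
      refine ContinuousAt.comp (g := κ.symm) (f := fun p : E d × E k => κ x + I p.1) ?_
        hcB.continuousAt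
      show ContinuousAt κ.symm (κ x + I ((0, 0) : E d × E k).1)
      rw [hval]
      exact κ.symm.continuousAt (κ.map_source hx)
    have h2 : ContinuousAt (fun p : E d × E k => (p.2, κ.symm (κ x + I p.1))) (0, 0) :=
      continuous_snd.continuousAt.prodMk h1
    exact ContinuousAt.comp (g := fun q : E k × M => a q.1 q.2) (a_cont hA).continuousAt h2
  have hC1 : ∀ᶠ p : E d × E k in 𝓝 (0, 0), a p.2 (κ.symm (κ x + I p.1)) ∈ κ.source := by
    refine hcC.eventually_mem (κ.open_source.mem_nhds ?_)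
    show a 0 (κ.symm (κ x + I 0)) ∈ κ.source
    rw [map_zero, add_zero, κ.left_inv hx, hA.zero]
    exact hx
  obtain ⟨ρ, hρ, hball⟩ := Metric.eventually_nhds_iff.1 ((hA1.and hB1).and hC1)
  have hin : ∀ (u : E d) (v : E k), ‖u‖ ≤ ρ / 2 → ‖v‖ ≤ ρ / 2 →
      (L (u, v) ∈ κ'.target ∧ κ x + I u ∈ κ.target) ∧ a v (κ.symm (κ x + I u)) ∈ κ.source := by
    intro u v hu hv
    refine hball (y := (u, v)) ?_
    rw [Prod.dist_eq, dist_zero_right, dist_zero_right]
    exact max_lt (by linarith) (by linarith)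
  have hact : ∀ (u : E d) (v : E k), ‖u‖ ≤ ρ / 2 → ‖v‖ ≤ ρ / 2 →
      κ'.symm (L (u, v)) = a v (κ.symm (κ x + I u)) := by
    intro u v hu hv
    obtain ⟨⟨-, -⟩, h3⟩ := hin u v hu hv
    show κ.symm (Hm a κ x I L (L (u, v))) = _
    rw [Hm_apply, κ.left_inv h3]
  refine ⟨d, κ', L.symm, ρ / 2, hnd, hκ'mem, hsrc, ?_, by linarith, ?_, ?_⟩
  · show L.symm (Ψ.symm (κ x)) = 0
    rw [← hΨ0', Ψ.left_inv h0]
    exact map_zero L.symm
  · intro u v hu hv
    exact (hin u v hu hv).1.1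
  · intro u v hu hv
    have h1 := hact u v hu hv
    have h2 := hact u 0 hu (by rw [norm_zero]; linarith)
    rw [hA.zero] at h2
    show κ'.symm (L (u, v)) = a v (κ'.symm (L (u, 0)))
    rw [h1, h2]

end

end Pool.Agent.H10.TSC
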